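import Pool.Agent.NF71.Hand

/-!
# Universal ternary classical lattices over totally real fields

Let `K` be a totally real number field, of any degree, which admits a universal ternary classical
lattice (free or not).  Then `K` is `ℚ(√2)`, `ℚ(√3)` or `ℚ(√5)`.
-/

namespace Pool.Agent.Results.MP_1a179f_nt.AllLattices

open NumberField Module

/-- `a` is totally positive: it is positive under every real embedding of `K` -/
def TotallyPositive {K : Type} [Field K] (a : K) : Prop := ∀ φ : K →+* ℝ, 0 < φ a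

/-- `(L, Q)` is a universal ternary classical lattice over `𝓞 K` in the `K`-vector space `V`:
`V` has dimension three, `L` is a finitely generated `𝓞 K`-submodule of `V` (not necessarily free)
which spans `V`, `Q` is a quadratic form on `V`, totally positive definite, the bilinear form
`B(x, y) = (Q(x + y) - Q(x) - Q(y)) / 2` has values in `𝓞 K` on `L`, and every totally positive
element of `𝓞 K` is `Q(v)` for some `v` in `L`. -/
structure IsUniversalClassicalTernary (K : Type) [Field K] [NumberField K] (V : Type*)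
    [AddCommGroup V] [Module K V] [Module (𝓞 K) V] [IsScalarTower (𝓞 K) K V]
    (Q : QuadraticForm K V) (L : Submodule (𝓞 K) V) : Prop where
  finrank_eq : finrank K V = 3
  fg : L.FG
  span_eq_top : Submodule.span K (L : Set V) = ⊤
  pos : ∀ v : V, v ≠ 0 → TotallyPositive (Q v)
  classical : ∀ x ∈ L, ∀ y ∈ L, ∃ b : 𝓞 K, (Q (x + y) - Q x - Q y) / 2 = (b : K)
  universal : ∀ a : 𝓞 K, TotallyPositive (a : K) → ∃ v ∈ L, Q v = (a : K)

/-- a totally real number field admitting a universal ternary classical lattice is `ℚ(√2)`,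
`ℚ(√3)` or `ℚ(√5)` -/
theorem result (K : Type) [Field K] [NumberField K] [IsTotallyReal K] (V : Type*)
    [AddCommGroup V] [Module K V] [Module (𝓞 K) V] [IsScalarTower (𝓞 K) K V]
    (Q : QuadraticForm K V) (L : Submodule (𝓞 K) V)
    (h : IsUniversalClassicalTernary K V Q L) :
    ∃ d : ℕ, (d = 2 ∨ d = 3 ∨ d = 5) ∧ finrank ℚ K = 2 ∧
      ∃ s : K, s ^ 2 = (d : K) ∧ IntermediateField.adjoin ℚ {s} = ⊤ := by
  have hcl : ∀ x ∈ L, ∀ y ∈ L, ∃ b : 𝓞 K, Q (x + y) - Q x - Q y = 2 * (b : K) := by
    intro x hx y hy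
    obtain ⟨b, hb⟩ := h.classical x hx y hy
    refine ⟨b, ?_⟩
    rw [← hb]
    field_simp
  obtain ⟨Q', L', h'⟩ := NF71.transport h.finrank_eq h.fg h.span_eq_top h.pos hcl h.universal
  obtain ⟨h2, hs⟩ := NF71.final_all h'
  have key : ∀ d : ℕ, ¬ IsSquare d → IsSquare ((d : ℕ) : 𝓞 K) → finrank ℚ K = 2 ∧
      ∃ s : K, s ^ 2 = (d : K) ∧ IntermediateField.adjoin ℚ {s} = ⊤ := by
    rintro d hd ⟨s, hs⟩
    have h3 : ((s : 𝓞 K) : K) ^ 2 = (d : K) := by
      have h4 := congrArg (fun x : 𝓞 K => (x : K)) hs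
      simp only [map_natCast, map_mul] at h4
      rw [h4, pow_two]
    exact ⟨h2, s, h3, NF71.adjoin_eq_top h2 hd h3⟩
  rcases hs with hs | hs | hs
  · exact ⟨2, Or.inl rfl, key 2 Nat.prime_two.not_isSquare (by exact_mod_cast hs)⟩
  · exact ⟨3, Or.inr (Or.inl rfl), key 3 Nat.prime_three.not_isSquare (by exact_mod_cast hs)⟩
  · exact ⟨5, Or.inr (Or.inr rfl), key 5 Nat.prime_five.not_isSquare (by exact_mod_cast hs)⟩

end Pool.Agent.Results.MP_1a179f_nt.AllLattices
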